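import Pool.Agent.Helper77.PPS.GoalsH

/-!
# The family is large
-/

set_option autoImplicit false

namespace Pool.Agent.Helper48.PPS

open NumberField Polynomial Module IsDedekindDomain
open Pool.Agent.Helper77.PPS
open Pool.Agent.Helper42.PP (Spl Base Tau)
open Pool.Agent.Helper17.PP (Sys)

theorem n_low (h1 : P_LAB) (h2 : N_CHB) (h3 : N_CHS) (h4 : N_SPL) : N_LOW := by
  classical
  intro p hp k _ K M K₁ M₁ _ _ _ _ _ _ _ _ _ _ _ _ _ _ _ _ _ _ _ ε δ P _ B L T aτ E hfam
  have : IsTotallyComplex K₁ := isTotallyComplex_of_algebra K K₁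
  obtain ⟨C, hC⟩ := h2 K
  have hp1 : (0 : ℝ) < (p : ℝ) - 1 := by
    have : (2 : ℝ) ≤ p := by exact_mod_cast hp.out.two_le
    linarith
  have hCh := h3 K K₁ B.S ((p : ℝ) - 1) hp1
  -- the classes
  set c : HeightOneSpectrum (𝓞 K) → (Fin B.t → ZMod p) := fun v j ↦ B.cl j v with hc
  set τ : Fin B.t → ZMod p := fun j ↦ B.ch j aτ with hτ
  have hspan : τ ∈ Submodule.span (ZMod p) (c '' B.calP) := by
    obtain ⟨b, -, hb⟩ := hfam
    have hb' : τ = ∑ q ∈ b, ((q.1.2 : (ZMod p)ˣ) : ZMod p) • c q.1.1 := by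
      rw [show τ = (B.sys E).cl₀ from rfl, ← hb]
      rfl
    rw [hb']
    exact Submodule.sum_mem _ fun q _ ↦ Submodule.smul_mem _ _
      (Submodule.subset_span ⟨q.1.1, q.2, rfl⟩)
  obtain ⟨c₁, c₂, X₀, hc₁, -, hlab⟩ := h1 p (HeightOneSpectrum (𝓞 K)) nv C hC B.calP hCh
    (Fin B.t → ZMod p) c τ hspan
  obtain ⟨C', hC'⟩ := h4 K K₁ B.S
  set κ : ℝ := ((p : ℝ) - 1) / finrank K K₁ with hκ
  refine ⟨Real.exp (-1) * (c₁ * Real.exp (-(((p : ℝ) - 1) * C'))), max X₀ 3, by positivity, ?_⟩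
  intro X hX
  have hX0 : X₀ ≤ X := (le_max_left _ _).trans hX
  have hX3 : 3 ≤ X := (le_max_right _ _).trans hX
  have hXpos : 0 < X := by linarith
  obtain ⟨hfin, hlow, -⟩ := hlab X hX0
  -- the analytic lower bound
  have hlog1 : 1 ≤ Real.log X := by
    rw [Real.le_log_iff_exp_le hXpos]
    exact (Real.exp_one_lt_d9.le.trans (by norm_num)).trans hX3
  have hlog0 : 0 < Real.log X := by linarith
  have hms : ms nv (B.calP.indicator fun _ ↦ ((p : ℝ) - 1)) X =
      ((p : ℝ) - 1) * ms nv (B.calP.indicator fun _ ↦ (1 : ℝ)) X := by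
    unfold ms
    rw [Finset.mul_sum]
    refine Finset.sum_congr rfl fun q _ ↦ ?_
    by_cases hq : q ∈ B.calP
    · rw [Set.indicator_of_mem hq, Set.indicator_of_mem hq]; ring
    · rw [Set.indicator_of_notMem hq, Set.indicator_of_notMem hq]; ring
  have hms2 : κ * Real.log (Real.log X) - ((p : ℝ) - 1) * C' ≤
      ms nv (B.calP.indicator fun _ ↦ ((p : ℝ) - 1)) X := by
    rw [hms]
    have h5 := (abs_le.1 (hC' X (by linarith))).1
    have h6 : 1 / (finrank K K₁ : ℝ) * Real.log (Real.log X) - C' ≤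
        ms nv (B.calP.indicator fun _ ↦ (1 : ℝ)) X := by
      have : ms nv ((Spl K₁ B.S).indicator fun _ ↦ (1 : ℝ)) X =
        ms nv (B.calP.indicator fun _ ↦ (1 : ℝ)) X := rfl
      linarith
    have h7 := mul_le_mul_of_nonneg_left h6 hp1.le
    calc κ * Real.log (Real.log X) - ((p : ℝ) - 1) * C'
        = ((p : ℝ) - 1) * (1 / (finrank K K₁ : ℝ) * Real.log (Real.log X) - C') := by
          rw [hκ]; ring
      _ ≤ _ := h7
  have hgK : gK κ X = Real.log X ^ (κ - 1) := by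
    unfold gK
    rw [max_eq_right (by linarith : (1 : ℝ) ≤ X), max_eq_right hlog1]
  have hmag : Real.exp (-(((p : ℝ) - 1) * C')) * (X * gK κ X) ≤
      mag nv (B.calP.indicator fun _ ↦ ((p : ℝ) - 1)) X := by
    unfold mag
    have h5 : Real.exp (κ * Real.log (Real.log X) - ((p : ℝ) - 1) * C') =
        Real.exp (-(((p : ℝ) - 1) * C')) * Real.log X ^ κ := by
      rw [sub_eq_add_neg, Real.exp_add, Real.rpow_def_of_pos hlog0]
      ring_nf
    have h6 : Real.log X ^ κ = Real.log X ^ (κ - 1) * Real.log X := by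
      rw [Real.rpow_sub_one hlog0.ne']
      field_simp
    calc Real.exp (-(((p : ℝ) - 1) * C')) * (X * gK κ X)
        = X / Real.log X * Real.exp (κ * Real.log (Real.log X) - ((p : ℝ) - 1) * C') := by
          rw [h5, h6, hgK]; field_simp
      _ ≤ X / Real.log X * Real.exp (ms nv (B.calP.indicator fun _ ↦ ((p : ℝ) - 1)) X) := by
          refine mul_le_mul_of_nonneg_left (Real.exp_le_exp.2 hms2) (by positivity)
  -- the injection
  set P' : Finset B.LP := (B.sys E).upto X with hP'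
  refine ⟨P', ?_⟩
  have hmemP : ∀ q : B.LP, q ∈ P' ↔ (nv q.1.1 : ℝ) ≤ X := by
    intro q
    rw [hP', Sys.upto, Set.Finite.mem_toFinset, Set.mem_ofPred_eq,
      show (B.sys E).N q = nv q.1.1 from rfl, Nat.le_floor_iff hXpos.le]
  let Φ : (HeightOneSpectrum (𝓞 K) →₀ ZMod p) → Finset B.LP := fun e ↦
    P'.filter fun q ↦ ((q.1.2 : (ZMod p)ˣ) : ZMod p) = e q.1.1
  have hone : ∀ (s : Finset (HeightOneSpectrum (𝓞 K))) (v : HeightOneSpectrum (𝓞 K)), v ∈ s →
      nv v ≤ nb nv s := by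
    intro s v hv
    unfold nb
    refine Finset.single_le_prod' (f := nv) (fun w _ ↦ ?_) hv
    have := hC.two w
    omega
  have hunit : ∀ e ∈ labs p nv B.calP c τ X, ∀ v ∈ e.support, ∃ q ∈ Φ e, q.1.1 = v := by
    intro e he v hv
    have h0 : e v ≠ 0 := Finsupp.mem_support_iff.1 hv
    refine ⟨⟨(v, Units.mk0 (e v) h0), he.1 v hv⟩, ?_, rfl⟩
    refine Finset.mem_filter.2 ⟨(hmemP _).2 ?_, rfl⟩
    refine le_trans ?_ he.2.1
    exact_mod_cast hone e.support v hv
  have hsupp : ∀ e, ∀ q ∈ Φ e, q.1.1 ∈ e.support := by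
    intro e q hq
    rw [Finsupp.mem_support_iff, ← (Finset.mem_filter.1 hq).2]
    exact q.1.2.ne_zero
  have hinjb : ∀ e, ∀ q ∈ Φ e, ∀ q' ∈ Φ e, q.1.1 = q'.1.1 → q = q' := by
    intro e q hq q' hq' h
    have h5 := (Finset.mem_filter.1 hq).2
    have h6 := (Finset.mem_filter.1 hq').2
    refine Subtype.ext (Prod.ext h (Units.ext ?_))
    rw [h5, h6, h]
  have hnm : ∀ e ∈ labs p nv B.calP c τ X, (B.sys E).nm (Φ e) = nb nv e.support := by
    intro e he
    unfold Sys.nm nb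
    refine Finset.prod_nbij (fun q ↦ q.1.1) (hsupp e) ?_ ?_ ?_
    · intro q hq q' hq' h
      exact hinjb e q hq q' hq' h
    · intro v hv
      obtain ⟨q, hq, hqv⟩ := hunit e he v hv
      exact ⟨q, hq, hqv⟩
    · intro q hq
      rfl
  have hFam : ∀ e ∈ labs p nv B.calP c τ X, (B.sys E).Fam (Φ e) := by
    intro e he
    refine ⟨fun q hq q' hq' h ↦ hinjb e q hq q' hq' h, ?_⟩
    rw [show (B.sys E).cl₀ = τ from rfl, ← he.2.2]
    refine Finset.sum_nbij (fun q ↦ q.1.1) (hsupp e) ?_ ?_ ?_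
    · intro q hq q' hq' h
      exact hinjb e q hq q' hq' h
    · intro v hv
      obtain ⟨q, hq, hqv⟩ := hunit e he v hv
      exact ⟨q, hq, hqv⟩
    · intro q hq
      rw [← (Finset.mem_filter.1 hq).2]
      rfl
  have hinj : Set.InjOn Φ (labs p nv B.calP c τ X) := by
    intro e he e' he' h
    ext v
    by_cases h0 : e v = 0
    · by_cases h0' : e' v = 0
      · rw [h0, h0']
      · exfalso
        obtain ⟨q, hq, hqv⟩ := hunit e' he' v (Finsupp.mem_support_iff.2 h0')
        have h5 := hsupp e q (by rw [h]; exact hq)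
        rw [hqv] at h5
        exact (Finsupp.mem_support_iff.1 h5) h0
    · obtain ⟨q, hq, hqv⟩ := hunit e he v (Finsupp.mem_support_iff.2 h0)
      have h5 := (Finset.mem_filter.1 hq).2
      have h6 : q ∈ Φ e' := by rw [← h]; exact hq
      have h7 := (Finset.mem_filter.1 h6).2
      rw [← hqv, ← h5, h7]
  set Lf := hfin.toFinset with hLf
  have hcard : ((Lf.image Φ).card : ℝ) = ((labs p nv B.calP c τ X).ncard : ℝ) := by
    rw [Finset.card_image_of_injOn (by rw [hLf, Set.Finite.coe_toFinset]; exact hinj),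
      Set.ncard_eq_toFinset_card _ hfin]
  have hsum : ((Lf.image Φ).card : ℝ) * Real.exp (-1) ≤
      ∑ b ∈ P'.powerset with (B.sys E).Fam b, Real.exp (-((B.sys E).nm b / X)) := by
    rw [← nsmul_eq_mul, ← Finset.sum_const]
    refine le_trans (Finset.sum_le_sum (g := fun b ↦ Real.exp (-((B.sys E).nm b / X))) ?_)
      (Finset.sum_le_sum_of_subset_of_nonneg ?_ fun b _ _ ↦ (Real.exp_pos _).le)
    · intro b hb
      obtain ⟨e, he, rfl⟩ := Finset.mem_image.1 hb
      have he' : e ∈ labs p nv B.calP c τ X := (Set.Finite.mem_toFinset hfin).1 he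
      refine Real.exp_le_exp.2 (neg_le_neg ?_)
      rw [hnm e he', div_le_one hXpos]
      exact he'.2.1
    · intro b hb
      obtain ⟨e, he, rfl⟩ := Finset.mem_image.1 hb
      have he' : e ∈ labs p nv B.calP c τ X := (Set.Finite.mem_toFinset hfin).1 he
      exact Finset.mem_filter.2 ⟨Finset.mem_powerset.2 (Finset.filter_subset _ _), hFam e he'⟩
  calc Real.exp (-1) * (c₁ * Real.exp (-(((p : ℝ) - 1) * C'))) * (X * gK κ X)
      = Real.exp (-1) * (c₁ * (Real.exp (-(((p : ℝ) - 1) * C')) * (X * gK κ X))) := by ring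
    _ ≤ Real.exp (-1) * (c₁ * mag nv (B.calP.indicator fun _ ↦ ((p : ℝ) - 1)) X) := by
        gcongr
    _ ≤ Real.exp (-1) * ((labs p nv B.calP c τ X).ncard : ℝ) := by gcongr
    _ = ((Lf.image Φ).card : ℝ) * Real.exp (-1) := by rw [hcard]; ring
    _ ≤ _ := hsum

end Pool.Agent.Helper48.PPS
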